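import Mathlib

/-!
# Concise cubics with many minimal cubic generators in the apolar ideal

For every `u ≥ 3` let `m = u + u (u + 1) / 2`. The cubic form `T = ∑_{i ≤ j} X_{ij} U_i U_j` in `m`
variables `U_i`, `X_{ij}` is concise, and its apolar ideal has at least `binom (u + 2) 3 ≥ m` minimal
generators of degree `3`. For `u = 3` these are at least `10` generators in `m = 9` variables.

Reason: the elements of `Ann(T)` of degree `2` have no monomial `u_i u_j`, since
`u_i u_j ∘ T` is a nonzero multiple of `X_{ij}`. So all cubic monomials in the `u_i`, which annihilate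
`T`, are minimal generators, modulo each other.
-/

set_option autoImplicit false

open MvPolynomial

namespace Pool.Agent.Results.MP_1eaf4f_ag.ManyCubicGenerators

variable {n : ℕ}

/-- The operator `∂^a = ∂_0 ^ (a 0) ∘ ⋯ ∘ ∂_(n-1) ^ (a (n-1))` applied to `G`. -/
noncomputable def dmon (a : Fin n →₀ ℕ) (G : MvPolynomial (Fin n) ℂ) : MvPolynomial (Fin n) ℂ :=
  (List.finRange n).foldr (fun i H => (pderiv i)^[a i] H) G

/-- The apolarity action: the operator `g (∂_0, …, ∂_(n-1))` applied to `G`. -/
noncomputable def act (g G : MvPolynomial (Fin n) ℂ) : MvPolynomial (Fin n) ℂ :=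
  ∑ a ∈ g.support, C (g.coeff a) * dmon a G

/-- `T` is concise: no nonzero linear form annihilates `T`. -/
def Concise (T : MvPolynomial (Fin n) ℂ) : Prop :=
  ∀ l : MvPolynomial (Fin n) ℂ, l.IsHomogeneous 1 → act l T = 0 → l = 0

/-- `Ann(T)_d`, the space of forms of degree `d` that annihilate `T` (see `mem_annPiece`). -/
noncomputable def annPiece (T : MvPolynomial (Fin n) ℂ) (d : ℕ) :
    Submodule ℂ (MvPolynomial (Fin n) ℂ) :=
  Submodule.span ℂ {f | f.IsHomogeneous d ∧ act f T = 0}

/-- `S_1 · Ann(T)_2`, the span of the products `x q` of linear forms `x` and annihilating quadratic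
forms `q`. -/
noncomputable def prodPiece (T : MvPolynomial (Fin n) ℂ) : Submodule ℂ (MvPolynomial (Fin n) ℂ) :=
  Submodule.span ℂ {f | ∃ x q : MvPolynomial (Fin n) ℂ, x.IsHomogeneous 1 ∧ q.IsHomogeneous 2 ∧
    act q T = 0 ∧ f = x * q}

/-- The number `dim Ann(T)_3 - dim (S_1 · Ann(T)_2)` of minimal generators of `Ann(T)` of
degree `3`. -/
noncomputable def cubicGenerators (T : MvPolynomial (Fin n) ℂ) : ℕ :=
  Module.finrank ℂ (annPiece T 3) - Module.finrank ℂ (prodPiece T)

/-! ### The action in coordinates -/

lemma coeff_pderiv_iter (i : Fin n) (m : ℕ) (H : MvPolynomial (Fin n) ℂ) (c : Fin n →₀ ℕ) :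
    coeff c ((pderiv i)^[m] H)
      = coeff (c + Finsupp.single i m) H * (((c i + m).descFactorial m : ℕ) : ℂ) := by
  induction m generalizing c with
  | zero => simp
  | succ m ih =>
    rw [Function.iterate_succ_apply', coeff_pderiv, ih]
    have h1 : c + Finsupp.single i 1 + Finsupp.single i m = c + Finsupp.single i (m + 1) := by
      rw [add_assoc, ← Finsupp.single_add, add_comm 1 m]
    rw [h1]
    have h2 : ((c + Finsupp.single i 1 : Fin n →₀ ℕ) i) + m = c i + (m + 1) := by
      rw [Finsupp.add_apply, Finsupp.single_eq_same]; ring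
    rw [h2, Nat.descFactorial_succ]
    have h3 : c i + (m + 1) - m = c i + 1 := by omega
    rw [h3]
    push_cast
    ring

lemma coeff_foldr (a : Fin n →₀ ℕ) (F : MvPolynomial (Fin n) ℂ) (l : List (Fin n)) :
    l.Nodup → ∀ c : Fin n →₀ ℕ,
      coeff c (l.foldr (fun i H => (pderiv i)^[a i] H) F)
      = coeff (c + (l.map (fun i => Finsupp.single i (a i))).sum) F *
        (l.map (fun i => (((c i + a i).descFactorial (a i) : ℕ) : ℂ))).prod := by
  induction l with
  | nil => intro _ c; simp
  | cons j l ih =>
    intro hl c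
    rw [List.nodup_cons] at hl
    rw [List.foldr_cons, coeff_pderiv_iter, ih hl.2, List.map_cons, List.sum_cons, List.map_cons,
      List.prod_cons, ← add_assoc]
    have h1 : (l.map (fun i => ((((c + Finsupp.single j (a j) : Fin n →₀ ℕ) i + a i).descFactorial
        (a i) : ℕ) : ℂ))) = (l.map (fun i => (((c i + a i).descFactorial (a i) : ℕ) : ℂ))) := by
      apply List.map_congr_left
      intro i hi
      have hij : i ≠ j := fun h => hl.1 (h ▸ hi)
      rw [Finsupp.add_apply, Finsupp.single_eq_of_ne hij, add_zero]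
    rw [h1]
    ring

lemma coeff_dmon (a : Fin n →₀ ℕ) (F : MvPolynomial (Fin n) ℂ) (c : Fin n →₀ ℕ) :
    coeff c (dmon a F) = coeff (c + a) F * ∏ i, (((c i + a i).descFactorial (a i) : ℕ) : ℂ) := by
  rw [dmon, coeff_foldr a F _ (List.nodup_finRange n)]
  congr 2
  · congr 1
    rw [← List.ofFn_eq_map, List.sum_ofFn]
    exact Finsupp.univ_sum_single a

lemma coeff_act (g F : MvPolynomial (Fin n) ℂ) (c : Fin n →₀ ℕ) :
    coeff c (act g F) = ∑ a ∈ g.support, g.coeff a * (coeff (c + a) F *
      ∏ i, (((c i + a i).descFactorial (a i) : ℕ) : ℂ)) := by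
  rw [act, coeff_sum]
  refine Finset.sum_congr rfl fun a _ => ?_
  rw [coeff_C_mul, coeff_dmon]

/-- If only the exponent `a` with `c + a` in the support of `F` can occur in `g` and `g` is
annihilating, then its coefficient is zero. -/
lemma coeff_zero_of_act {g F : MvPolynomial (Fin n) ℂ} (h : act g F = 0) {c a : Fin n →₀ ℕ}
    (hF : coeff (c + a) F ≠ 0)
    (hu : ∀ b ∈ g.support, coeff (c + b) F ≠ 0 → b = a) : coeff a g = 0 := by
  by_contra hne
  have h1 : coeff c (act g F) = 0 := by rw [h, coeff_zero]
  rw [coeff_act, Finset.sum_eq_single a] at h1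
  · rcases mul_eq_zero.1 h1 with h2 | h2
    · exact hne h2
    · rcases mul_eq_zero.1 h2 with h3 | h3
      · exact hF h3
      · rw [Finset.prod_eq_zero_iff] at h3
        obtain ⟨i, _, h4⟩ := h3
        rw [Nat.cast_eq_zero, Nat.descFactorial_eq_zero_iff_lt] at h4
        omega
  · intro b hb hba
    have h5 : coeff (c + b) F = 0 := by
      by_contra h6
      exact hba (hu b hb h6)
    rw [h5]
    ring
  · intro h7
    exact absurd (mem_support_iff.2 hne) h7

lemma act_add (g g' F : MvPolynomial (Fin n) ℂ) : act (g + g') F = act g F + act g' F := by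
  classical
  ext c
  rw [coeff_add]
  have key : ∀ (h : MvPolynomial (Fin n) ℂ) (s : Finset (Fin n →₀ ℕ)), h.support ⊆ s →
      coeff c (act h F) = ∑ a ∈ s, h.coeff a * (coeff (c + a) F *
      ∏ i, (((c i + a i).descFactorial (a i) : ℕ) : ℂ)) := by
    intro h s hs
    rw [coeff_act]
    refine Finset.sum_subset hs fun a _ ha => ?_
    rw [notMem_support_iff.1 ha, zero_mul]
  rw [key _ (g.support ∪ g'.support) support_add, key g (g.support ∪ g'.support)
    Finset.subset_union_left, key g' (g.support ∪ g'.support) Finset.subset_union_right,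
    ← Finset.sum_add_distrib]
  refine Finset.sum_congr rfl fun a _ => ?_
  rw [coeff_add]
  ring

lemma act_smul (r : ℂ) (g F : MvPolynomial (Fin n) ℂ) : act (r • g) F = r • act g F := by
  ext c
  rw [coeff_smul, coeff_act, coeff_act, Finset.smul_sum]
  have : ∑ a ∈ (r • g).support, (r • g).coeff a * (coeff (c + a) F *
      ∏ i, (((c i + a i).descFactorial (a i) : ℕ) : ℂ)) =
      ∑ a ∈ g.support, (r • g).coeff a * (coeff (c + a) F *
      ∏ i, (((c i + a i).descFactorial (a i) : ℕ) : ℂ)) := by
    refine Finset.sum_subset support_smul fun a _ ha => ?_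
    rw [notMem_support_iff.1 ha, zero_mul]
  rw [this]
  refine Finset.sum_congr rfl fun a _ => ?_
  rw [coeff_smul, smul_eq_mul, smul_eq_mul]
  ring

lemma dmon_dmon (a b : Fin n →₀ ℕ) (F : MvPolynomial (Fin n) ℂ) :
    dmon (a + b) F = dmon a (dmon b F) := by
  ext c
  rw [coeff_dmon, coeff_dmon, coeff_dmon, ← add_assoc, mul_assoc, ← Finset.prod_mul_distrib]
  congr 1
  refine Finset.prod_congr rfl fun i _ => ?_
  rw [← Nat.cast_mul]
  congr 1
  have h1 := Nat.factorial_mul_descFactorial (n := c i + (a + b) i) (k := (a + b) i) (by omega)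
  have h2 := Nat.factorial_mul_descFactorial (n := (c + a) i + b i) (k := b i) (by omega)
  have h3 := Nat.factorial_mul_descFactorial (n := c i + a i) (k := a i) (by omega)
  rw [Nat.add_sub_cancel] at h1 h2 h3
  rw [Finsupp.add_apply] at h1 h2 ⊢
  have h4 : c i + (a i + b i) = c i + a i + b i := by ring
  rw [h4] at h1 ⊢
  have h5 : 0 < (c i).factorial := Nat.factorial_pos _
  apply Nat.eq_of_mul_eq_mul_left h5
  rw [h1, ← h2, ← h3]
  rw [Finsupp.add_apply]
  ring

lemma dmon_add (a : Fin n →₀ ℕ) (F G : MvPolynomial (Fin n) ℂ) :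
    dmon a (F + G) = dmon a F + dmon a G := by
  ext c
  rw [coeff_add, coeff_dmon, coeff_dmon, coeff_dmon, coeff_add]
  ring

lemma dmon_smul (a : Fin n →₀ ℕ) (r : ℂ) (F : MvPolynomial (Fin n) ℂ) :
    dmon a (r • F) = r • dmon a F := by
  ext c
  rw [coeff_smul, coeff_dmon, coeff_dmon, coeff_smul, smul_eq_mul, smul_eq_mul]
  ring

lemma act_monomial (a : Fin n →₀ ℕ) (r : ℂ) (F : MvPolynomial (Fin n) ℂ) :
    act (monomial a r) F = r • dmon a F := by
  classical
  by_cases hr : r = 0
  · subst hr
    simp [act]
  · rw [act, support_monomial, if_neg hr, Finset.sum_singleton, coeff_monomial, if_pos rfl,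
      smul_eq_C_mul]

lemma act_monomial_mul (a : Fin n →₀ ℕ) (r : ℂ) (q F : MvPolynomial (Fin n) ℂ) :
    act (monomial a r * q) F = r • dmon a (act q F) := by
  induction q using MvPolynomial.induction_on' with
  | monomial b s =>
    rw [monomial_mul, act_monomial, act_monomial, dmon_dmon, dmon_smul, smul_smul]
  | add p q hp hq =>
    rw [mul_add, act_add, act_add, hp, hq, dmon_add, smul_add]

lemma act_mul_eq_zero (x : MvPolynomial (Fin n) ℂ) {q F : MvPolynomial (Fin n) ℂ}
    (h : act q F = 0) : act (x * q) F = 0 := by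
  induction x using MvPolynomial.induction_on' with
  | monomial b s =>
    rw [act_monomial_mul, h]
    have : dmon b (0 : MvPolynomial (Fin n) ℂ) = 0 := by
      have := dmon_smul b 0 (0 : MvPolynomial (Fin n) ℂ)
      simpa using this
    rw [this, smul_zero]
  | add p q hp hq =>
    rw [add_mul, act_add, hp, hq, add_zero]

/-- The elements of `annPiece T d` are exactly the forms of degree `d` that annihilate `T`. -/
lemma mem_annPiece (T : MvPolynomial (Fin n) ℂ) (d : ℕ) (f : MvPolynomial (Fin n) ℂ) :
    f ∈ annPiece T d ↔ f.IsHomogeneous d ∧ act f T = 0 := by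
  constructor
  · intro hf
    induction hf using Submodule.span_induction with
    | mem x hx => exact hx
    | zero => exact ⟨isHomogeneous_zero _ _ _, by simp [act]⟩
    | add x y _ _ hx hy => exact ⟨hx.1.add hy.1, by rw [act_add, hx.2, hy.2, add_zero]⟩
    | smul r x _ hx =>
      refine ⟨?_, by rw [act_smul, hx.2, smul_zero]⟩
      rw [smul_eq_C_mul]
      have := (isHomogeneous_C (Fin n) r).mul hx.1
      rwa [zero_add] at this
  · intro hf
    exact Submodule.subset_span hf

lemma degree_one {a : Fin n →₀ ℕ} (ha : a.degree = 1) : ∃ v, a = Finsupp.single v 1 := by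
  have h : a ∈ Set.range (fun v : Fin n => (Finsupp.single v 1 : Fin n →₀ ℕ)) := by
    rw [Finsupp.range_single_one]; exact ha
  obtain ⟨v, hv⟩ := h
  exact ⟨v, hv.symm⟩

lemma toMultiset_mk {α : Type*} (a b : α) : (s(a, b) : Sym2 α).toMultiset = {a, b} := rfl

lemma toMultiset_inj {α : Type*} {z w : Sym2 α} (h : z.toMultiset = w.toMultiset) : z = w := by
  induction z with
  | _ a b =>
    induction w with
    | _ c d =>
      rw [toMultiset_mk, toMultiset_mk] at h
      rw [Multiset.insert_eq_cons, Multiset.insert_eq_cons, Multiset.cons_eq_cons] at h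
      rw [Sym2.eq_iff]
      rcases h with ⟨h1, h2⟩ | ⟨_, cs, h1, h2⟩
      · exact Or.inl ⟨h1, Multiset.singleton_inj.1 h2⟩
      · have h3 : cs = 0 := by
          have := congrArg Multiset.card h1
          rw [Multiset.card_singleton, Multiset.card_cons] at this
          exact Multiset.card_eq_zero.1 (by omega)
        subst h3
        rw [← Multiset.singleton_add, add_zero] at h1 h2
        exact Or.inr ⟨(Multiset.singleton_inj.1 h2).symm, Multiset.singleton_inj.1 h1⟩

/-! ### The cubic form -/

section Cubic

variable {u : ℕ} (e : Fin u ⊕ Sym2 (Fin u) ≃ Fin n)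

/-- The exponent vector of a monomial in the `U_i`, given by a multiset of indices. -/
noncomputable def ex (s : Multiset (Fin u)) : Fin n →₀ ℕ :=
  (s.map fun i => Finsupp.single (e (Sum.inl i)) 1).sum

/-- The exponent vector of the term of `T` of index `z = {i, j}`: the monomial `X_{ij} U_i U_j`. -/
noncomputable def et (z : Sym2 (Fin u)) : Fin n →₀ ℕ :=
  Finsupp.single (e (Sum.inr z)) 1 + ex e z.toMultiset

/-- The cubic form `T = ∑_z X_z U_i U_j` over all unordered pairs `z = {i, j}`. -/
noncomputable def cub : MvPolynomial (Fin n) ℂ := ∑ z : Sym2 (Fin u), monomial (et e z) 1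

lemma ex_inr (s : Multiset (Fin u)) (z : Sym2 (Fin u)) : ex e s (e (Sum.inr z)) = 0 := by
  induction s using Multiset.induction with
  | empty => simp [ex]
  | cons i s ih =>
    rw [ex, Multiset.map_cons, Multiset.sum_cons, Finsupp.add_apply]
    rw [ex] at ih
    rw [ih, add_zero, Finsupp.single_apply, if_neg]
    intro h
    have := e.injective h
    simp at this

lemma ex_inl (s : Multiset (Fin u)) (i : Fin u) : ex e s (e (Sum.inl i)) = s.count i := by
  induction s using Multiset.induction with
  | empty => simp [ex]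
  | cons j s ih =>
    rw [ex, Multiset.map_cons, Multiset.sum_cons, Finsupp.add_apply]
    rw [ex] at ih
    rw [ih, Finsupp.single_apply, Multiset.count_cons]
    by_cases h : i = j
    · subst h; simp [add_comm]
    · rw [if_neg, if_neg h]
      · ring
      · intro h'
        have := e.injective h'
        simp at this
        exact h this.symm

lemma ex_inj {s t : Multiset (Fin u)} (h : ex e s = ex e t) : s = t := by
  ext i
  rw [← ex_inl e, ← ex_inl e, h]

lemma ex_add (s t : Multiset (Fin u)) : ex e (s + t) = ex e s + ex e t := by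
  rw [ex, Multiset.map_add, Multiset.sum_add]; rfl

lemma degree_ex (s : Multiset (Fin u)) : (ex e s).degree = s.card := by
  induction s using Multiset.induction with
  | empty => simp [ex]
  | cons j s ih =>
    rw [ex, Multiset.map_cons, Multiset.sum_cons, map_add, Multiset.card_cons]
    rw [ex] at ih
    rw [ih, Finsupp.degree_single]
    ring

lemma et_inr (z w : Sym2 (Fin u)) : et e z (e (Sum.inr w)) = if z = w then 1 else 0 := by
  rw [et, Finsupp.add_apply, ex_inr, add_zero, Finsupp.single_apply]
  simp

lemma et_inl (z : Sym2 (Fin u)) (i : Fin u) :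
    et e z (e (Sum.inl i)) = z.toMultiset.count i := by
  rw [et, Finsupp.add_apply, ex_inl, Finsupp.single_apply, if_neg]
  · rw [zero_add]
  · intro h
    have := e.injective h
    simp at this

lemma et_inj {z w : Sym2 (Fin u)} (h : et e z = et e w) : z = w := by
  by_contra hne
  have h1 := congrArg (fun f => f (e (Sum.inr w))) h
  simp [et_inr, hne] at h1

lemma degree_et (z : Sym2 (Fin u)) : (et e z).degree = 3 := by
  rw [et, map_add, Finsupp.degree_single, degree_ex, Sym2.card_toMultiset]

lemma coeff_cub (a : Fin n →₀ ℕ) : coeff a (cub e) ≠ 0 ↔ ∃ z, et e z = a := by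
  classical
  rw [cub, coeff_sum]
  simp only [coeff_monomial]
  constructor
  · intro h
    by_contra hcon
    push Not at hcon
    apply h
    exact Finset.sum_eq_zero fun z _ => if_neg (hcon z)
  · rintro ⟨z, rfl⟩
    rw [Finset.sum_eq_single z]
    · simp
    · intro w _ hw
      rw [if_neg]
      intro h
      exact hw (et_inj e h)
    · simp

lemma cub_hom : (cub e).IsHomogeneous 3 := by
  apply IsHomogeneous.sum
  intro z _
  exact isHomogeneous_monomial _ (degree_et e z)

/-- Exponent vectors that vanish at the `X`-variables come from multisets. -/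
lemma exists_ex (a : Fin n →₀ ℕ) (h : ∀ z, a (e (Sum.inr z)) = 0) : ∃ s, ex e s = a := by
  refine ⟨∑ i : Fin u, Multiset.replicate (a (e (Sum.inl i))) i, ?_⟩
  ext v
  obtain ⟨w, rfl⟩ := e.surjective v
  rcases w with i | z
  · rw [ex_inl, Multiset.count_sum']
    simp [Multiset.count_replicate]
  · rw [ex_inr, h]

/-- Annihilating quadratic forms have no terms `u_i u_j`. -/
lemma quad_coeff {q : MvPolynomial (Fin n) ℂ} (h : act q (cub e) = 0)
    {s : Multiset (Fin u)} (hs : s.card = 2) : coeff (ex e s) q = 0 := by
  obtain ⟨z, hz⟩ : ∃ z : Sym2 (Fin u), z.toMultiset = s := by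
    rw [Multiset.card_eq_two] at hs
    obtain ⟨x, y, rfl⟩ := hs
    exact ⟨s(x, y), rfl⟩
  apply coeff_zero_of_act h (c := Finsupp.single (e (Sum.inr z)) 1)
  · rw [coeff_cub]
    exact ⟨z, by rw [et, hz]⟩
  · intro b _ hb
    rw [coeff_cub] at hb
    obtain ⟨w, hw⟩ := hb
    have h1 := congrArg (fun f => f (e (Sum.inr z))) hw
    simp only [et_inr, Finsupp.add_apply, Finsupp.single_eq_same] at h1
    have hwz : w = z := by
      by_contra hne
      rw [if_neg hne] at h1
      omega
    rw [hwz, et, hz] at hw
    exact (add_left_cancel hw).symm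

lemma cub_concise : Concise (cub e) := by
  intro l hl h
  ext a
  rw [coeff_zero]
  by_cases ha : a.degree = 1
  · obtain ⟨v, rfl⟩ := degree_one ha
    obtain ⟨w, rfl⟩ := e.surjective v
    rcases w with i | z
    · apply coeff_zero_of_act h
        (c := Finsupp.single (e (Sum.inr s(i, i))) 1 + Finsupp.single (e (Sum.inl i)) 1)
      · rw [coeff_cub]
        refine ⟨s(i, i), ?_⟩
        rw [et, add_assoc]
        congr 1
        rw [toMultiset_mk, ex]
        simp
      · intro b _ hb
        rw [coeff_cub] at hb
        obtain ⟨w, hw⟩ := hb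
        have h1 := congrArg (fun f => f (e (Sum.inr s(i, i)))) hw
        simp only [et_inr, Finsupp.add_apply, Finsupp.single_eq_same] at h1
        have hwz : w = s(i, i) := by
          by_contra hne
          rw [if_neg hne] at h1
          omega
        rw [hwz, et, add_assoc] at hw
        have h2 := add_left_cancel hw
        rw [toMultiset_mk, ex] at h2
        simp only [Multiset.insert_eq_cons, Multiset.map_cons, Multiset.map_singleton,
          Multiset.sum_cons, Multiset.sum_singleton] at h2
        exact (add_left_cancel h2).symm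
    · apply coeff_zero_of_act h (c := ex e z.toMultiset)
      · rw [coeff_cub]
        exact ⟨z, by rw [et, add_comm]⟩
      · intro b hb' hb
        have hb1 : b.degree = 1 := by
          by_contra hne
          exact (mem_support_iff.1 hb') (hl.coeff_eq_zero hne)
        rw [coeff_cub] at hb
        obtain ⟨w, hw⟩ := hb
        have h1 := congrArg (fun f => f (e (Sum.inr w))) hw
        simp only [et_inr, Finsupp.add_apply, ex_inr, if_true, zero_add] at h1
        obtain ⟨v, rfl⟩ := degree_one hb1
        have hv : v = e (Sum.inr w) := by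
          by_contra hne
          rw [Finsupp.single_apply, if_neg hne] at h1
          omega
        subst hv
        rw [et, add_comm] at hw
        have h3 := add_right_cancel hw
        have h4 : w = z := toMultiset_inj (ex_inj e h3)
        rw [h4]
  · exact hl.coeff_eq_zero ha

/-- The coefficients of the cubic monomials in the `u_i`. -/
noncomputable def cf : MvPolynomial (Fin n) ℂ →ₗ[ℂ] (Sym (Fin u) 3 → ℂ) :=
  LinearMap.pi fun s => lcoeff ℂ (ex e (s : Multiset (Fin u)))

lemma cf_apply (f : MvPolynomial (Fin n) ℂ) (s : Sym (Fin u) 3) :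
    cf e f s = coeff (ex e (s : Multiset (Fin u))) f := rfl

/-- The products `x q` have no cubic terms in the `u_i`. -/
lemma cf_prod {f : MvPolynomial (Fin n) ℂ} (hf : f ∈ prodPiece (cub e)) : cf e f = 0 := by
  classical
  induction hf using Submodule.span_induction with
  | mem x hx =>
    obtain ⟨x, q, hx, hq, hact, rfl⟩ := hx
    funext s
    rw [cf_apply, Pi.zero_apply, coeff_mul]
    apply Finset.sum_eq_zero
    rintro ⟨a, b⟩ hab
    rw [Finset.HasAntidiagonal.mem_antidiagonal] at hab
    simp only at hab ⊢
    by_cases hb : b.degree = 2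
    · obtain ⟨t, rfl⟩ : ∃ t, ex e t = b := by
        apply exists_ex
        intro z
        have h1 := congrArg (fun f => f (e (Sum.inr z))) hab
        simp only [Finsupp.add_apply, ex_inr] at h1
        omega
      rw [quad_coeff e hact (by rw [← degree_ex e, hb]), mul_zero]
    · rw [hq.coeff_eq_zero hb, mul_zero]
  | zero => simp
  | add x y _ _ hx hy => rw [map_add, hx, hy, add_zero]
  | smul r x _ hx => rw [map_smul, hx, smul_zero]

/-- The cubic monomials in the `u_i` annihilate `T`. -/
lemma cubic_mem (s : Multiset (Fin u)) (hs : s.card = 3) :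
    monomial (ex e s) (1 : ℂ) ∈ annPiece (cub e) 3 := by
  classical
  rw [mem_annPiece]
  refine ⟨isHomogeneous_monomial _ (by rw [degree_ex]; exact hs), ?_⟩
  ext c
  rw [coeff_act, coeff_zero]
  apply Finset.sum_eq_zero
  intro a ha
  have ha' : a = ex e s := by
    have := support_monomial_subset ha
    simpa using this
  have h1 : coeff (c + a) (cub e) = 0 := by
    by_contra hne
    rw [← ne_eq, coeff_cub] at hne
    obtain ⟨z, hz⟩ := hne
    have h2 : s ≤ z.toMultiset := by
      rw [Multiset.le_iff_count]
      intro i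
      rw [← et_inl e, hz, ha', Finsupp.add_apply, ex_inl]
      omega
    have h3 := Multiset.card_le_card h2
    rw [Sym2.card_toMultiset] at h3
    omega
  rw [h1]
  ring

lemma prod_le : prodPiece (cub e) ≤ homogeneousSubmodule (Fin n) ℂ 3 := by
  rw [prodPiece, Submodule.span_le]
  rintro _ ⟨x, q, hx, hq, _, rfl⟩
  exact hx.mul hq

lemma finrank_bound :
    (Fintype.card (Sym (Fin u) 3)) + Module.finrank ℂ (prodPiece (cub e)) ≤
      Module.finrank ℂ (annPiece (cub e) 3) := by
  classical
  have hfin : Module.Finite ℂ (homogeneousSubmodule (Fin n) ℂ 3) :=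
    Module.Finite.iff_fg.2 (homogeneousSubmodule_fg _ _ 3)
  have hle : annPiece (cub e) 3 ≤ homogeneousSubmodule (Fin n) ℂ 3 := fun f hf =>
    ((mem_annPiece _ _ _).1 hf).1
  have hA : Module.Finite ℂ (annPiece (cub e) 3) :=
    Submodule.finiteDimensional_of_le hle
  -- the products annihilate
  have hP : prodPiece (cub e) ≤ annPiece (cub e) 3 := by
    rw [prodPiece, Submodule.span_le]
    rintro _ ⟨x, q, hx, hq, hact, rfl⟩
    exact (mem_annPiece _ _ _).2 ⟨hx.mul hq, act_mul_eq_zero x hact⟩
  -- the coefficients of the cubic monomials in the `u_i`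
  set L : annPiece (cub e) 3 →ₗ[ℂ] (Sym (Fin u) 3 → ℂ) := (cf e).domRestrict _ with hL
  have hsurj : LinearMap.range L = ⊤ := by
    rw [eq_top_iff]
    intro v _
    have hv : v = ∑ s, v s • L ⟨monomial (ex e (s : Multiset (Fin u))) 1,
        cubic_mem e _ s.2⟩ := by
      funext t
      rw [Finset.sum_apply, Finset.sum_eq_single t]
      · rw [Pi.smul_apply, hL, LinearMap.domRestrict_apply, cf_apply, coeff_monomial, if_pos rfl,
          smul_eq_mul, mul_one]
      · intro s _ hst
        rw [Pi.smul_apply, hL, LinearMap.domRestrict_apply, cf_apply, coeff_monomial, if_neg,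
          smul_zero]
        intro h
        exact hst (Sym.coe_injective (ex_inj e h))
      · simp
    rw [hv]
    exact Submodule.sum_mem _ fun s _ => Submodule.smul_mem _ _ ⟨_, rfl⟩
  have hker : Module.finrank ℂ (prodPiece (cub e)) ≤ Module.finrank ℂ (LinearMap.ker L) := by
    have h1 : prodPiece (cub e) ≤ (LinearMap.ker L).map (annPiece (cub e) 3).subtype := by
      intro f hf
      refine ⟨⟨f, hP hf⟩, ?_, rfl⟩
      change L _ = 0
      rw [hL, LinearMap.domRestrict_apply]
      exact cf_prod e hf
    calc Module.finrank ℂ (prodPiece (cub e))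
        ≤ Module.finrank ℂ ((LinearMap.ker L).map (annPiece (cub e) 3).subtype) :=
          Submodule.finrank_mono h1
      _ ≤ Module.finrank ℂ (LinearMap.ker L) := Submodule.finrank_map_le _ _
  have h2 := LinearMap.finrank_range_add_finrank_ker L
  rw [hsurj, finrank_top, Module.finrank_fintype_fun_eq_card] at h2
  omega

end Cubic

lemma choose_bound {u : ℕ} (hu : 3 ≤ u) : u + (u + 1).choose 2 ≤ (u + 2).choose 3 := by
  induction u, hu using Nat.le_induction with
  | base => decide
  | succ u hu ih =>
    have h1 : (u + 1 + 2).choose 3 = (u + 2).choose 2 + (u + 2).choose 3 :=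
      Nat.choose_succ_succ _ _
    have h2 : 0 < (u + 1).choose 2 := Nat.choose_pos (by omega)
    have h3 : (u + 1 + 1).choose 2 = (u + 2).choose 2 := rfl
    omega

/-- For every `u ≥ 3` there is a concise cubic form `T` in `m = u + u (u + 1) / 2` variables whose
apolar ideal has at least `binom (u + 2) 3 ≥ m` minimal generators of degree `3`. In particular
(`u = 3`) there is a concise `T ∈ S^3 ℂ^9` whose apolar ideal has at least `10` minimal cubic
generators. -/
theorem result :
    (∀ u : ℕ, 3 ≤ u → ∃ T : MvPolynomial (Fin (u + (u + 1).choose 2)) ℂ,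
      T.IsHomogeneous 3 ∧ Concise T ∧ u + (u + 1).choose 2 ≤ (u + 2).choose 3 ∧
        (u + 2).choose 3 ≤ cubicGenerators T) ∧
    ∃ T : MvPolynomial (Fin 9) ℂ, T.IsHomogeneous 3 ∧ Concise T ∧ 10 ≤ cubicGenerators T := by
  have main : ∀ u n : ℕ, n = u + (u + 1).choose 2 → ∃ T : MvPolynomial (Fin n) ℂ,
      T.IsHomogeneous 3 ∧ Concise T ∧ (u + 2).choose 3 ≤ cubicGenerators T := by
    intro u n hn
    have hcard : Fintype.card (Fin u ⊕ Sym2 (Fin u)) = n := by
      rw [Fintype.card_sum, Fintype.card_fin, Sym2.card, Fintype.card_fin, hn]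
    let e : Fin u ⊕ Sym2 (Fin u) ≃ Fin n := Fintype.equivFinOfCardEq hcard
    refine ⟨cub e, cub_hom e, cub_concise e, ?_⟩
    have h1 := finrank_bound e
    rw [Sym.card_sym_eq_choose, Fintype.card_fin] at h1
    rw [cubicGenerators]
    have h2 : u + 3 - 1 = u + 2 := rfl
    rw [h2] at h1
    omega
  constructor
  · intro u hu
    obtain ⟨T, h1, h2, h3⟩ := main u _ rfl
    exact ⟨T, h1, h2, choose_bound hu, h3⟩
  · obtain ⟨T, h1, h2, h3⟩ := main 3 9 rfl
    exact ⟨T, h1, h2, h3⟩

end Pool.Agent.Results.MP_1eaf4f_ag.ManyCubicGenerators
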